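import Pool.Agent.Helper5.UN.Goals
import Pool.Agent.Helper62.RO.MUL

/-!
# Packet UN-GTP (MP_a41896_nt): a generic solution of the relations is a point
-/

set_option autoImplicit false

namespace Pool.Agent.Helper64.UN

open WeierstrassCurve
open Pool.Agent.Helper29.BL Pool.Agent.Helper5.RO Pool.Agent.Helper5.UN

noncomputable section

/-! ## Pairs of points -/

section points

variable {F : Type} [Field F] [DecidableEq F] {W : Affine F}

/-- `p` is a pair of the point `P` -/
def RP (p : Fin 2 → F) (P : W.Point) : Prop := ∃ σ : F, σ ≠ 0 ∧ p = σ • P.xRep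

theorem RP.neg {p : Fin 2 → F} {P : W.Point} (h : RP p P) : RP p (-P) := by
  obtain ⟨σ, h1, h2⟩ := h
  exact ⟨σ, h1, by rw [Affine.Point.xRep_neg]; exact h2⟩

theorem RP.uniq {p : Fin 2 → F} {P Q : W.Point} (h : RP p P) (h' : RP p Q) :
    P = Q ∨ P = -Q := by
  obtain ⟨σ, h1, h2⟩ := h
  obtain ⟨τ, h3, h4⟩ := h'
  rw [h2] at h4
  have e0 := congrFun h4 0
  have e1 := congrFun h4 1
  simp only [Pi.smul_apply, smul_eq_mul] at e0 e1
  apply Affine.Point.eq_or_eq_neg_of_xRep_eq_xRep
  by_cases hP : P = 0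
  · by_cases hQ : Q = 0
    · rw [hP, hQ]
    · exfalso
      rw [hP, Pool.Agent.Helper62.RO.xRep_of_ne Q hQ, Affine.Point.xRep_zero] at e1
      simp at e1
      exact h3 e1.symm
  · by_cases hQ : Q = 0
    · exfalso
      rw [hQ, Pool.Agent.Helper62.RO.xRep_of_ne P hP, Affine.Point.xRep_zero] at e1
      simp at e1
      exact h1 e1
    · rw [Pool.Agent.Helper62.RO.xRep_of_ne P hP, Pool.Agent.Helper62.RO.xRep_of_ne Q hQ] at e0 e1 ⊢
      simp at e0 e1
      rw [e1] at e0
      rw [mul_left_cancel₀ h3 e0]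

theorem RP.of_prop {r : Fin 2 → F} (hr : r ≠ 0) {R : W.Point}
    (h : R.xRep 0 * r 1 = R.xRep 1 * r 0) : RP r R := by
  by_cases hR : R = 0
  · rw [hR, Affine.Point.xRep_zero] at h
    simp at h
    refine ⟨r 0, ?_, ?_⟩
    · intro h0
      apply hr
      funext i
      fin_cases i
      · exact h0
      · exact h
    · rw [hR, Affine.Point.xRep_zero]
      funext i
      fin_cases i
      · simp
      · simp [h]
  · rw [Pool.Agent.Helper62.RO.xRep_of_ne R hR] at h
    simp at h
    refine ⟨r 1, ?_, ?_⟩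
    · intro h1
      apply hr
      funext i
      fin_cases i
      · change r 0 = 0
        rw [← h, h1, mul_zero]
      · exact h1
    · rw [Pool.Agent.Helper62.RO.xRep_of_ne R hR]
      funext i
      fin_cases i
      · change r 0 = r 1 * xc R
        rw [← h, mul_comm]
      · change r 1 = r 1 * 1
        rw [mul_one]

variable {K : Type} [Field K] (φ : K →+* F) (W₀ : Affine K) [W₀.IsElliptic]

theorem asm_pair (hA : G_ASM) (hW : W = W₀.map φ) {p q : Fin 2 → F} {P Q : W.Point}
    (hp : RP p P) (hq : RP q Q) :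
    ∃ c : F, c ≠ 0 ∧ asm φ W₀ (sy p q) = c • sy (P + Q).xRep (P - Q).xRep := by
  obtain ⟨σ, h1, h2⟩ := hp
  obtain ⟨τ, h3, h4⟩ := hq
  obtain ⟨c, hc, h⟩ := hA.1 K F φ W₀ W hW P Q
  refine ⟨(σ * τ) ^ 2 * c, mul_ne_zero (pow_ne_zero 2 (mul_ne_zero h1 h3)) hc, ?_⟩
  rw [h2, h4, (hA.2.1 K F φ W₀ σ τ (sy P.xRep Q.xRep) P.xRep Q.xRep).2,
    (hA.2.1 K F φ W₀ (σ * τ) τ (sy P.xRep Q.xRep) P.xRep Q.xRep).1, h, smul_smul]

theorem RP.add_or_sub (hA : G_ASM) (hW : W = W₀.map φ) {p q r : Fin 2 → F} {P Q : W.Point}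
    (hp : RP p P) (hq : RP q Q) (hr : r ≠ 0)
    (h : asm φ W₀ (sy p q) 0 * r 1 ^ 2 - asm φ W₀ (sy p q) 1 * (r 0 * r 1) +
      asm φ W₀ (sy p q) 2 * r 0 ^ 2 = 0) : RP r (P + Q) ∨ RP r (P - Q) := by
  obtain ⟨c, hc, hcs⟩ := asm_pair φ W₀ hA hW hp hq
  rw [hcs] at h
  have h' : c * (((P + Q).xRep 0 * r 1 - (P + Q).xRep 1 * r 0) *
      ((P - Q).xRep 0 * r 1 - (P - Q).xRep 1 * r 0)) = 0 := by
    rw [← h]
    simp only [sy, Pi.smul_apply, smul_eq_mul, Matrix.cons_val_zero, Matrix.cons_val_one,
      Matrix.cons_val_two, Matrix.head_cons, Matrix.tail_cons, Matrix.cons_val]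
    ring
  rcases mul_eq_zero.1 ((mul_eq_zero.1 h').resolve_left hc) with h1 | h1
  · exact Or.inl (RP.of_prop hr (sub_eq_zero.1 h1))
  · exact Or.inr (RP.of_prop hr (sub_eq_zero.1 h1))

theorem sy_comm (a b : Fin 2 → F) : sy a b = sy b a := by
  unfold sy
  rw [mul_comm (a 0) (b 0), mul_comm (a 1) (b 1), mul_comm (a 0) (b 1), mul_comm (a 1) (b 0),
    add_comm (b 1 * a 0)]

theorem RP.second (hA : G_ASM) {A B : W.Point} {v : Fin 3 → F} {c : F} (hc : c ≠ 0)
    (hv : v = c • sy A.xRep B.xRep) {r s : Fin 2 → F} (hr : RP r A) (hs : s ≠ 0)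
    (h : ∀ i j, v i * sy r s j = v j * sy r s i) : RP s B := by
  obtain ⟨ρ, h1, h2⟩ := hr
  have h3 : sy r s = ρ • sy A.xRep s := by
    have := (hA.2.1 F F (RingHom.id F) W ρ 1 0 A.xRep s).2
    rw [one_smul, mul_one] at this
    rw [h2]
    exact this
  apply RP.of_prop hs
  refine ((hA.2.2.2.1 F A.xRep B.xRep s (Affine.Point.xRep_ne_zero A)
    (Affine.Point.xRep_ne_zero B) hs).2 ?_)
  intro i j
  have h4 := h i j
  rw [hv, h3] at h4
  simp only [Pi.smul_apply, smul_eq_mul] at h4
  have h5 : (c * ρ) * (sy A.xRep B.xRep i * sy A.xRep s j) =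
      (c * ρ) * (sy A.xRep B.xRep j * sy A.xRep s i) := by
    linear_combination h4
  exact mul_left_cancel₀ (mul_ne_zero hc h1) h5

theorem RP.iff_of_mnr (hA : G_ASM) (hW : W = W₀.map φ) {p q r s : Fin 2 → F} {P Q : W.Point}
    (hp : RP p P) (hq : RP q Q) (hr : r ≠ 0) (hs : s ≠ 0)
    (h : ∀ i j, asm φ W₀ (sy p q) i * sy r s j = asm φ W₀ (sy p q) j * sy r s i) :
    RP r (P + Q) ↔ RP s (P - Q) := by
  obtain ⟨c, hc, hcs⟩ := asm_pair φ W₀ hA hW hp hq
  constructor
  · intro h1
    exact RP.second hA hc hcs h1 hs h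
  · intro h1
    rw [sy_comm (P + Q).xRep] at hcs
    refine RP.second hA hc hcs h1 hr ?_
    intro i j
    rw [sy_comm s r]
    exact h i j

end points

/-! ## Integer vectors -/

/-- entries in `{-1, 0, 1}` -/
def B1 {n : ℕ} (m : Fin n → ℤ) : Prop := ∀ i, |m i| ≤ 1

theorem vec_sg {n : ℕ} {m : Fin n → ℤ} (h : B1 m) :
    vec (Pool.Agent.Helper5.UN.sg m) = m := by
  funext i
  have h1 := abs_le.1 (h i)
  have h2 : m i = -1 ∨ m i = 0 ∨ m i = 1 := by omega
  unfold vec Pool.Agent.Helper5.UN.sg
  rcases h2 with h2 | h2 | h2 <;> rw [h2] <;> rfl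

theorem sg_vec {n : ℕ} (e : EE n) : Pool.Agent.Helper5.UN.sg (vec e) = e := by
  funext i
  have key : ∀ s : SignType, SignType.sign ((s : ℤ)) = s := by decide
  exact key (e i)

theorem B1_vec {n : ℕ} (e : EE n) : B1 (vec e) := by
  intro i
  unfold vec
  cases e i <;> decide

theorem vec_un {n : ℕ} (i : Fin n) : vec (un i) = Pi.single i (1 : ℤ) := by
  funext j
  unfold vec un
  by_cases h : j = i
  · subst h
    simp
  · simp [Pi.single_eq_of_ne h]

section vz

variable {G : Type} [AddCommGroup G] {n : ℕ} (z : Fin n → G)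

theorem vz_add (m m' : Fin n → ℤ) : vz (m + m') z = vz m z + vz m' z := by
  simp [vz, add_smul, Finset.sum_add_distrib]

theorem vz_neg (m : Fin n → ℤ) : vz (-m) z = -vz m z := by
  simp [vz]

theorem vz_sub (m m' : Fin n → ℤ) : vz (m - m') z = vz m z - vz m' z := by
  rw [sub_eq_add_neg, vz_add, vz_neg, sub_eq_add_neg]

theorem vz_single (i : Fin n) (c : ℤ) : vz (Pi.single i c) z = c • z i := by
  unfold vz
  rw [Finset.sum_eq_single i]
  · rw [Pi.single_eq_same]
  · intro j _ hj
    rw [Pi.single_eq_of_ne hj, zero_smul]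
  · intro h
    exact absurd (Finset.mem_univ i) h

theorem vz_zero : vz (0 : Fin n → ℤ) z = 0 := by
  simp [vz]

end vz

theorem B1_single {n : ℕ} (i : Fin n) {s : ℤ} (hs : |s| ≤ 1) : B1 (Pi.single i s) := by
  intro k
  by_cases h : k = i
  · subst h
    rw [Pi.single_eq_same]
    exact hs
  · rw [Pi.single_eq_of_ne h]
    decide

theorem B1_two {n : ℕ} {i j : Fin n} (hij : i ≠ j) {s t : ℤ} (hs : |s| ≤ 1) (ht : |t| ≤ 1) :
    B1 (Pi.single i s + Pi.single j t) := by
  intro k
  rw [Pi.add_apply]
  by_cases h : k = i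
  · subst h
    rw [Pi.single_eq_same, Pi.single_eq_of_ne hij, add_zero]
    exact hs
  · rw [Pi.single_eq_of_ne h, zero_add]
    by_cases h' : k = j
    · subst h'
      rw [Pi.single_eq_same]
      exact ht
    · rw [Pi.single_eq_of_ne h']
      decide

theorem B1_neg {n : ℕ} {m : Fin n → ℤ} (h : B1 m) : B1 (-m) := by
  intro i
  rw [Pi.neg_apply, abs_neg]
  exact h i

/-- The combinatorial part: the signs can be chosen consistently. -/
theorem signs {n : ℕ} {G : Type} [AddCommGroup G] (z : Fin n → G) (R : (Fin n → ℤ) → G → Prop)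
    (hinj : ∀ m, m ≠ 0 → vz m z ≠ 0)
    (hneg : ∀ m P, R m P → R m (-P))
    (huniq : ∀ m P Q, R m P → R m Q → P = Q ∨ P = -Q)
    (hzero : R 0 0)
    (hN : ∀ m P, B1 m → R m P → R (-m) P)
    (hQ : ∀ m m' P Q, B1 m → B1 m' → B1 (m + m') → R m P → R m' Q →
      R (m + m') (P + Q) ∨ R (m + m') (P - Q))
    (hM : ∀ m m' P Q, B1 m → B1 m' → B1 (m + m') → B1 (m - m') → R m P → R m' Q →
      (R (m + m') (P + Q) ↔ R (m - m') (P - Q)))
    (i₀ : Fin n) (h1 : ∀ i, R (Pi.single i 1) (z i))
    (h2 : ∀ i, i ≠ i₀ → R (Pi.single i₀ 1 + Pi.single i 1) (z i₀ + z i)) :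
    ∀ m, B1 m → R m (vz m z) := by
  have a1 : |(1 : ℤ)| ≤ 1 := by decide
  have a2 : |(-1 : ℤ)| ≤ 1 := by decide
  have inj : ∀ m m', vz m z = vz m' z → m = m' := by
    intro m m' h
    by_contra hne
    apply hinj (m - m') (sub_ne_zero.2 hne)
    rw [vz_sub, h, sub_self]
  have gneg : ∀ m, B1 m → R m (vz m z) → R (-m) (vz (-m) z) := by
    intro m hm h
    rw [vz_neg]
    exact hneg _ _ (hN m _ hm h)
  have g1 : ∀ i, R (Pi.single i 1) (vz (Pi.single i 1) z) := by
    intro i
    rw [vz_single, one_smul]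
    exact h1 i
  have gm1 : ∀ i, R (Pi.single i (-1)) (vz (Pi.single i (-1)) z) := by
    intro i
    have := gneg _ (B1_single i a1) (g1 i)
    rw [← Pi.single_neg] at this
    exact this
  -- sum and difference of two unit vectors
  have sd : ∀ i j, i ≠ j →
      (R (Pi.single i 1 + Pi.single j 1) (vz (Pi.single i 1 + Pi.single j 1) z) ↔
      R (Pi.single i 1 + Pi.single j (-1)) (vz (Pi.single i 1 + Pi.single j (-1)) z)) := by
    intro i j hij
    have e : (Pi.single i 1 + Pi.single j (-1) : Fin n → ℤ) = Pi.single i 1 - Pi.single j 1 := by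
      rw [Pi.single_neg, sub_eq_add_neg]
    have := hM _ _ _ _ (B1_single i a1) (B1_single j a1) (B1_two hij a1 a1)
      (by rw [← e]; exact B1_two hij a1 a2) (g1 i) (g1 j)
    rw [← vz_add, ← vz_sub, ← e] at this
    exact this
  have pos : ∀ i j, i ≠ j →
      R (Pi.single i 1 + Pi.single j 1) (vz (Pi.single i 1 + Pi.single j 1) z) := by
    intro i j hij
    by_cases hi : i = i₀
    · subst hi
      have := h2 j (Ne.symm hij)
      rw [vz_add, vz_single, vz_single, one_smul, one_smul]
      exact this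
    by_cases hj : j = i₀
    · subst hj
      have := h2 i hi
      rw [vz_add, vz_single, vz_single, one_smul, one_smul, add_comm, add_comm (z i)]
      exact this
    rw [sd i j hij]
    have g0i : R (Pi.single i₀ 1 + Pi.single i 1) (vz (Pi.single i₀ 1 + Pi.single i 1) z) := by
      rw [vz_add, vz_single, vz_single, one_smul, one_smul]
      exact h2 i hi
    have g0j : R (Pi.single i₀ 1 + Pi.single j 1) (vz (Pi.single i₀ 1 + Pi.single j 1) z) := by
      rw [vz_add, vz_single, vz_single, one_smul, one_smul]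
      exact h2 j hj
    have b0i : B1 (Pi.single i₀ 1 + Pi.single i 1 : Fin n → ℤ) := B1_two (Ne.symm hi) a1 a1
    have b0j : B1 (Pi.single i₀ 1 + Pi.single j 1 : Fin n → ℤ) := B1_two (Ne.symm hj) a1 a1
    have bij : B1 (Pi.single i 1 + Pi.single j (-1) : Fin n → ℤ) := B1_two hij a1 a2
    have e1 : (Pi.single i₀ 1 + Pi.single i 1 : Fin n → ℤ) + -(Pi.single i₀ 1 + Pi.single j 1) =
        Pi.single i 1 + Pi.single j (-1) := by
      rw [Pi.single_neg]
      abel
    have e2 : (Pi.single i 1 : Fin n → ℤ) + Pi.single j (-1) =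
        Pi.single i 1 + Pi.single j (-1) := rfl
    have q1 := hQ _ _ _ _ b0i (B1_neg b0j) (by rw [e1]; exact bij) g0i (gneg _ b0j g0j)
    have q2 := hQ _ _ _ _ (B1_single i a1) (B1_single j a2) bij (g1 i) (gm1 j)
    rw [← vz_add, ← vz_sub, e1] at q1
    rw [← vz_add, ← vz_sub] at q2
    rcases q1 with q1 | q1
    · exact q1
    rcases q2 with q2 | q2
    · exact q2
    exfalso
    rcases huniq _ _ _ q1 q2 with h | h
    · have h' := congrFun (inj _ _ h) i₀
      simp [Pi.single_eq_of_ne (Ne.symm hi), Pi.single_eq_of_ne (Ne.symm hj)] at h'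
    · rw [← vz_neg] at h
      have h' := congrFun (inj _ _ h) i₀
      simp [Pi.single_eq_of_ne (Ne.symm hi), Pi.single_eq_of_ne (Ne.symm hj)] at h'
  have two : ∀ i j, i ≠ j → ∀ s t : ℤ, (s = 1 ∨ s = -1) → (t = 1 ∨ t = -1) →
      R (Pi.single i s + Pi.single j t) (vz (Pi.single i s + Pi.single j t) z) := by
    intro i j hij s t hs ht
    rcases hs with rfl | rfl <;> rcases ht with rfl | rfl
    · exact pos i j hij
    · exact (sd i j hij).1 (pos i j hij)
    · have := (sd j i (Ne.symm hij)).1 (pos j i (Ne.symm hij))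
      rw [add_comm] at this
      exact this
    · have := gneg _ (B1_two hij a1 a1) (pos i j hij)
      rw [neg_add, ← Pi.single_neg, ← Pi.single_neg] at this
      exact this
  have val : ∀ m : Fin n → ℤ, B1 m → ∀ i, m i ≠ 0 → m i = 1 ∨ m i = -1 := by
    intro m hm i hi
    have h := abs_le.1 (hm i)
    omega
  suffices H : ∀ N : ℕ, ∀ m : Fin n → ℤ, B1 m →
      (Finset.univ.filter fun i => m i ≠ 0).card = N → R m (vz m z) from
    fun m hm => H _ m hm rfl
  intro N
  induction N using Nat.strong_induction_on with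
  | _ N ih =>
    intro m hm hN'
    rcases Nat.lt_or_ge 2 N with hN2 | hN2
    · -- at least three entries
      rw [← hN', Finset.two_lt_card] at hN2
      obtain ⟨k, hk, l, hl, r, hr, hkl, hkr, hlr⟩ := hN2
      rw [Finset.mem_filter] at hk hl hr
      by_contra hcon
      have key : ∀ k, m k ≠ 0 → R m (vz (m - Pi.single k (2 * m k)) z) := by
        intro k hk
        have bk : B1 (Pi.single k (m k)) := B1_single k (hm k)
        have bm : B1 (m - Pi.single k (m k)) := by
          intro i
          rw [Pi.sub_apply]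
          by_cases h : i = k
          · subst h
            rw [Pi.single_eq_same, sub_self]
            decide
          · rw [Pi.single_eq_of_ne h, sub_zero]
            exact hm i
        have em : m - Pi.single k (m k) + Pi.single k (m k) = m := sub_add_cancel _ _
        have gk : R (Pi.single k (m k)) (vz (Pi.single k (m k)) z) := by
          rcases val m hm k hk with h | h <;> rw [h]
          · exact g1 k
          · exact gm1 k
        have hlt : (Finset.univ.filter fun i =>
            (m - Pi.single k (m k) : Fin n → ℤ) i ≠ 0).card < N := by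
          rw [← hN']
          apply Finset.card_lt_card
          rw [Finset.ssubset_iff_of_subset]
          · refine ⟨k, ?_, ?_⟩
            · rw [Finset.mem_filter]
              exact ⟨Finset.mem_univ _, hk⟩
            · rw [Finset.mem_filter]
              rintro ⟨_, h⟩
              apply h
              rw [Pi.sub_apply, Pi.single_eq_same, sub_self]
          · intro i hi
            rw [Finset.mem_filter] at hi ⊢
            refine ⟨Finset.mem_univ _, ?_⟩
            by_cases h : i = k
            · rw [h]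
              exact hk
            · have := hi.2
              rw [Pi.sub_apply, Pi.single_eq_of_ne h, sub_zero] at this
              exact this
        have gm := ih _ hlt _ bm rfl
        have q := hQ _ _ _ _ bm bk (by rw [em]; exact hm) gm gk
        rw [← vz_add, ← vz_sub, em] at q
        rcases q with q | q
        · exact absurd q hcon
        · have e3 : m - Pi.single k (m k) - Pi.single k (m k) = m - Pi.single k (2 * m k) := by
            rw [sub_sub, ← Pi.single_add, two_mul]
          rw [e3] at q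
          exact q
      rcases huniq _ _ _ (key k hk.2) (key l hl.2) with h | h
      · have h' := congrFun (inj _ _ h) k
        rw [Pi.sub_apply, Pi.sub_apply, Pi.single_eq_same, Pi.single_eq_of_ne hkl] at h'
        apply hk.2
        omega
      · rw [← vz_neg] at h
        have h' := congrFun (inj _ _ h) r
        rw [Pi.neg_apply, Pi.sub_apply, Pi.sub_apply, Pi.single_eq_of_ne (Ne.symm hkr),
          Pi.single_eq_of_ne (Ne.symm hlr)] at h'
        apply hr.2
        omega
    · -- at most two entries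
      interval_cases N
      · have : m = 0 := by
          funext i
          by_contra h
          have : i ∈ Finset.univ.filter fun i => m i ≠ 0 := by
            rw [Finset.mem_filter]
            exact ⟨Finset.mem_univ _, h⟩
          rw [Finset.card_eq_zero.1 hN'] at this
          exact absurd this (Finset.notMem_empty i)
        rw [this, vz_zero]
        exact hzero
      · obtain ⟨i, hi⟩ := Finset.card_eq_one.1 hN'
        have hmi : m i ≠ 0 := by
          have : i ∈ Finset.univ.filter fun i => m i ≠ 0 := by rw [hi]; simp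
          exact (Finset.mem_filter.1 this).2
        have e : m = Pi.single i (m i) := by
          funext k
          by_cases h : k = i
          · subst h
            rw [Pi.single_eq_same]
          · rw [Pi.single_eq_of_ne h]
            by_contra h'
            have : k ∈ Finset.univ.filter fun i => m i ≠ 0 := by
              rw [Finset.mem_filter]
              exact ⟨Finset.mem_univ _, h'⟩
            rw [hi, Finset.mem_singleton] at this
            exact h this
        rcases val m hm i hmi with h | h <;> rw [h] at e <;> rw [e]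
        · exact g1 i
        · exact gm1 i
      · obtain ⟨i, j, hij, hi⟩ := Finset.card_eq_two.1 hN'
        have hmi : m i ≠ 0 := by
          have : i ∈ Finset.univ.filter fun i => m i ≠ 0 := by rw [hi]; simp
          exact (Finset.mem_filter.1 this).2
        have hmj : m j ≠ 0 := by
          have : j ∈ Finset.univ.filter fun i => m i ≠ 0 := by rw [hi]; simp
          exact (Finset.mem_filter.1 this).2
        have e : m = Pi.single i (m i) + Pi.single j (m j) := by
          funext k
          rw [Pi.add_apply]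
          by_cases h : k = i
          · subst h
            rw [Pi.single_eq_same, Pi.single_eq_of_ne hij, add_zero]
          · rw [Pi.single_eq_of_ne h, zero_add]
            by_cases h2 : k = j
            · subst h2
              rw [Pi.single_eq_same]
            · rw [Pi.single_eq_of_ne h2]
              by_contra h'
              have : k ∈ Finset.univ.filter fun i => m i ≠ 0 := by
                rw [Finset.mem_filter]
                exact ⟨Finset.mem_univ _, h'⟩
              rw [hi, Finset.mem_insert, Finset.mem_singleton] at this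
              exact this.elim h h2
        have := two i j hij (m i) (m j) (val m hm i hmi) (val m hm j hmj)
        rw [← e] at this
        exact this

theorem sg_single {n : ℕ} (i : Fin n) :
    Pool.Agent.Helper5.UN.sg (Pi.single i (1 : ℤ)) = un i := by
  rw [← vec_un, sg_vec]

theorem pr_ne {S : Type} [CommRing S] [Nontrivial S] {n : ℕ} (a : EE n → Bool) (ζ : EE n → S)
    (e : EE n) : pr a ζ e ≠ 0 := by
  unfold pr
  intro h
  split_ifs at h
  · have := congrFun h 1
    simp at this
  · have := congrFun h 0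
    simp at this

theorem gGTP (hA : G_ASM) (hI : G_IND) (hT : G_TRD) : G_GTP := by
  intro K Ω _ _ _ _ _ W _ W' hW' n a ζ hR hζ
  have hell : W'.IsElliptic := by
    subst hW'
    exact inferInstanceAs (WeierstrassCurve.IsElliptic (W.map (algebraMap K Ω)))
  have hQ0 : ∀ i, ∃ Q : W'.Point, Q ≠ 0 ∧ RP (pr a ζ (un i)) Q ∧
      (xc Q = ζ (un i) ∨ xc Q = (ζ (un i))⁻¹) := by
    intro i
    have h0 : ζ (un i) ≠ 0 := hζ.ne_zero i
    by_cases ha : a (un i) = true
    · obtain ⟨Q, hQ, hx⟩ := Pool.Agent.Helper62.RO.exists_point W' (ζ (un i))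
      refine ⟨Q, hQ, ⟨1, one_ne_zero, ?_⟩, Or.inl hx⟩
      rw [Pool.Agent.Helper62.RO.xRep_of_ne Q hQ, one_smul, hx]
      unfold pr
      rw [if_pos ha]
    · obtain ⟨Q, hQ, hx⟩ := Pool.Agent.Helper62.RO.exists_point W' (ζ (un i))⁻¹
      refine ⟨Q, hQ, ⟨ζ (un i), h0, ?_⟩, Or.inr hx⟩
      rw [Pool.Agent.Helper62.RO.xRep_of_ne Q hQ, hx]
      unfold pr
      rw [if_neg ha]
      funext j
      fin_cases j
      · change (1 : Ω) = ζ (un i) * (ζ (un i))⁻¹
        rw [mul_inv_cancel₀ h0]
      · change ζ (un i) = ζ (un i) * 1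
        rw [mul_one]
  choose Q hQne hQR hQx using hQ0
  -- the relations for integer vectors
  have hzero : RP (pr a ζ (Pool.Agent.Helper5.UN.sg 0)) (0 : W'.Point) := by
    have e : (Pool.Agent.Helper5.UN.sg (0 : Fin n → ℤ)) = 0 := by
      funext i
      exact sign_zero
    rw [e]
    apply RP.of_prop (pr_ne _ _ _)
    rw [hR.zero, Affine.Point.xRep_zero]
    simp
  have hQ' : ∀ (m m' : Fin n → ℤ) (P R : W'.Point), B1 m → B1 m' → B1 (m + m') →
      RP (pr a ζ (Pool.Agent.Helper5.UN.sg m)) P → RP (pr a ζ (Pool.Agent.Helper5.UN.sg m')) R →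
      RP (pr a ζ (Pool.Agent.Helper5.UN.sg (m + m'))) (P + R) ∨
        RP (pr a ζ (Pool.Agent.Helper5.UN.sg (m + m'))) (P - R) := by
    intro m m' P R hm hm' hmm hP hR'
    refine RP.add_or_sub (algebraMap K Ω) W hA hW' hP hR' (pr_ne _ _ _) ?_
    apply hR.quad
    intro i
    rw [vec_sg hm, vec_sg hm', vec_sg hmm]
    rfl
  have hM : ∀ (m m' : Fin n → ℤ) (P R : W'.Point), B1 m → B1 m' → B1 (m + m') → B1 (m - m') →
      RP (pr a ζ (Pool.Agent.Helper5.UN.sg m)) P → RP (pr a ζ (Pool.Agent.Helper5.UN.sg m')) R →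
      (RP (pr a ζ (Pool.Agent.Helper5.UN.sg (m + m'))) (P + R) ↔
        RP (pr a ζ (Pool.Agent.Helper5.UN.sg (m - m'))) (P - R)) := by
    intro m m' P R hm hm' hmm hmm' hP hR'
    refine RP.iff_of_mnr (algebraMap K Ω) W hA hW' hP hR' (pr_ne _ _ _) (pr_ne _ _ _) ?_
    apply hR.mnr
    · intro i
      rw [vec_sg hm, vec_sg hm', vec_sg hmm]
      rfl
    · intro i
      rw [vec_sg hm, vec_sg hm', vec_sg hmm']
      rfl
  have b0 : B1 (0 : Fin n → ℤ) := by
    intro i
    simp
  have hN : ∀ (m : Fin n → ℤ) (P : W'.Point), B1 m → RP (pr a ζ (Pool.Agent.Helper5.UN.sg m)) P →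
      RP (pr a ζ (Pool.Agent.Helper5.UN.sg (-m))) P := by
    intro m P hm hP
    have h := hM 0 m 0 P b0 hm (by rw [zero_add]; exact hm) (by rw [zero_sub]; exact B1_neg hm)
      hzero hP
    rw [zero_add, zero_add, zero_sub, zero_sub] at h
    have := (h.1 hP).neg
    rw [neg_neg] at this
    exact this
  by_cases hn : Nonempty (Fin n)
  swap
  · have hemp : IsEmpty (Fin n) := not_nonempty_iff.1 hn
    refine ⟨Q, fun e => ?_⟩
    have he : vec e = 0 := Subsingleton.elim _ _
    rw [he, vz_zero]
    have := hzero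
    rw [← he, sg_vec] at this
    exact this
  obtain ⟨i₀⟩ := hn
  have a1 : |(1 : ℤ)| ≤ 1 := by decide
  have hz : ∀ i, ∃ R : W'.Point, (R = Q i ∨ R = -Q i) ∧ (i = i₀ → R = Q i₀) ∧
      (i ≠ i₀ → RP (pr a ζ (Pool.Agent.Helper5.UN.sg (Pi.single i₀ 1 + Pi.single i 1)))
        (Q i₀ + R)) := by
    intro i
    by_cases hi : i = i₀
    · exact ⟨Q i₀, Or.inl (by rw [hi]), fun _ => rfl, fun h => absurd hi h⟩
    · have h := hQ' (Pi.single i₀ 1) (Pi.single i 1) (Q i₀) (Q i) (B1_single i₀ a1)
        (B1_single i a1) (B1_two (Ne.symm hi) a1 a1) (by rw [sg_single]; exact hQR i₀)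
        (by rw [sg_single]; exact hQR i)
      rcases h with h | h
      · exact ⟨Q i, Or.inl rfl, fun h' => absurd h' hi, fun _ => h⟩
      · refine ⟨-Q i, Or.inr rfl, fun h' => absurd h' hi, fun _ => ?_⟩
        rw [← sub_eq_add_neg]
        exact h
  choose z hz1 hz2 hz3 using hz
  have hxc : ∀ i, xc (z i) = xc (Q i) := by
    intro i
    rcases hz1 i with h | h <;> rw [h]
    exact (Pool.Agent.Helper29.BL.xeq Ω W').2 (Q i)
  have hzne : ∀ i, z i ≠ 0 := by
    intro i
    rcases hz1 i with h | h <;> rw [h]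
    · exact hQne i
    · exact neg_ne_zero.2 (hQne i)
  have hind : AlgebraicIndependent K (fun i => xc (z i)) := by
    refine hT K Ω (Fin n) (fun i => ζ (un i)) (fun i => xc (z i)) hζ ?_
    intro i
    have h1 : xc (z i) ∈ IntermediateField.adjoin K (Set.range fun i => xc (z i)) :=
      IntermediateField.subset_adjoin K _ ⟨i, rfl⟩
    have h2 : ζ (un i) ∈ IntermediateField.adjoin K (Set.range fun i => xc (z i)) := by
      rcases hQx i with h | h
      · rw [← h, ← hxc i]
        exact h1
      · have h3 : ζ (un i) = (xc (z i))⁻¹ := by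
          rw [hxc i, h, inv_inv]
        rw [h3]
        exact inv_mem h1
    exact isAlgebraic_algebraMap
      (⟨ζ (un i), h2⟩ : IntermediateField.adjoin K (Set.range fun i => xc (z i)))
  have hinj := (hI K Ω W W' hW').1 n z hzne hind
  refine ⟨z, fun e => ?_⟩
  have hfin := signs z (fun m P => RP (pr a ζ (Pool.Agent.Helper5.UN.sg m)) P) hinj
    (fun m P h => h.neg) (fun m P R h h' => h.uniq h') hzero hN hQ' hM i₀ ?_ ?_ (vec e) (B1_vec e)
  · rw [sg_vec] at hfin
    exact hfin
  · intro i
    rw [sg_single]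
    rcases hz1 i with h | h <;> rw [h]
    · exact hQR i
    · exact (hQR i).neg
  · intro i hi
    have := hz3 i hi
    rw [hz2 i₀ rfl]
    exact this

end

end Pool.Agent.Helper64.UN
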